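import Pool.Agent.R227.TM7

set_option autoImplicit false

/-!
# MP_ed80cb_an, Q1: weak coercivity does not imply the Trudinger-Moser inequality with remainder

There is a nonnegative potential `V`, smooth in the open unit disc, in the local Kato class, for which
`Q_V` is weakly coercive, while for every exponent `α > 0` (in particular `α = 4π`) the supremum of
`∫ exp(α u²)` over test functions with `Q_V(u) ≤ 1` is infinite.
-/

open MeasureTheory Set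
open scoped ContDiff ENNReal

namespace Pool.Agent.Results.MP_ed80cb_an.SmoothPotentialCounterexample

/-- the Euclidean plane -/
abbrev Plane := EuclideanSpace ℝ (Fin 2)

/-- `u ∈ C₀^∞(Ω)` -/
def IsTest (Ω : Set Plane) (u : Plane → ℝ) : Prop :=
  ContDiff ℝ ∞ u ∧ HasCompactSupport u ∧ tsupport u ⊆ Ω

/-- `Q_V(u) = ∫_Ω |∇u|² - ∫_Ω V u²` -/
noncomputable def Q (Ω : Set Plane) (V u : Plane → ℝ) : ℝ :=
  (∫ x in Ω, ‖fderiv ℝ u x‖ ^ 2) - ∫ x in Ω, V x * u x ^ 2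

/-- the local Kato condition: `sup_x ∫_{K ∩ {|x-y|<r}} log(1/|x-y|) |V(y)| dy → 0` as `r → 0`, for
every compact `K ⊆ Ω` -/
def LocalKato (Ω : Set Plane) (V : Plane → ℝ) : Prop :=
  ∀ K ⊆ Ω, IsCompact K → ∀ η > 0, ∃ r₀ > 0, ∀ r, 0 < r → r < r₀ → ∀ x : Plane,
    ∫⁻ y in K ∩ {y | ‖x - y‖ < r}, ENNReal.ofReal (Real.log (1 / ‖x - y‖) * |V y|)
      ≤ ENNReal.ofReal η

/-- weak coercivity of `Q_V` -/
def WeaklyCoercive (Ω : Set Plane) (V : Plane → ℝ) : Prop :=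
  ∃ E : Set Plane, IsOpen E ∧ E.Nonempty ∧ IsCompact (closure E) ∧ closure E ⊆ Ω ∧
    ∃ δ > 0, ∀ u, IsTest Ω u → δ * (∫ x in E, u x) ^ 2 ≤ Q Ω V u

theorem result : ∃ V : Plane → ℝ,
    ContDiffOn ℝ ∞ V (Metric.ball 0 1) ∧
    (∀ x ∈ Metric.ball (0 : Plane) 1, 0 ≤ V x) ∧
    LocalKato (Metric.ball 0 1) V ∧
    WeaklyCoercive (Metric.ball 0 1) V ∧
    ∀ α > 0, ∀ M : ℝ, ∃ u, IsTest (Metric.ball 0 1) u ∧ Q (Metric.ball 0 1) V u ≤ 1 ∧
      M ≤ ∫ x in Metric.ball (0 : Plane) 1, Real.exp (α * u x ^ 2) := by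
  obtain ⟨V, h1, h2, h3, ⟨δ, hδ, h4⟩, h5⟩ := Pool.Agent.R227.TM.main
  refine ⟨V, h1, h2, h3, ?_, ?_⟩
  · refine ⟨Metric.ball 0 (1 / 4), Metric.isOpen_ball, ⟨0, by simp⟩, ?_, ?_, δ, hδ, ?_⟩
    · exact (isCompact_closedBall (0 : Plane) (1 / 4)).of_isClosed_subset isClosed_closure
        Metric.closure_ball_subset_closedBall
    · refine Metric.closure_ball_subset_closedBall.trans ?_
      exact Metric.closedBall_subset_ball (by norm_num)
    · intro u hu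
      exact h4 u hu.1 hu.2.1 hu.2.2
  · intro α hα M
    obtain ⟨u, a, b, c, d, e⟩ := h5 α hα M
    exact ⟨u, ⟨a, b, c⟩, d, e⟩

end Pool.Agent.Results.MP_ed80cb_an.SmoothPotentialCounterexample
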